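import Pool.Agent.Lib_MP_4426b5_al_ins.Bound

set_option autoImplicit false

/-!
# Deciding primitivity-blocking words (MP_4426b5_al)

Words over the letters x_i and their inverses are lists over Fin r x Bool, where (i, true) is the
letter x_i and (i, false) its inverse (the Mathlib convention for free groups).
-/

namespace Pool.Agent.Results.MP_4426b5_al.PrimrecLengthBound

/-- The word v is primitivity-blocking: for every automorphism of the free group, v is not a
contiguous subword of the cyclic reduction of the reduced word of the image of the generator x₁.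
-/
def Blocking {r : ℕ} (x₁ : Fin r) (v : List (Fin r × Bool)) : Prop :=
  ∀ φ : MulAut (FreeGroup (Fin r)),
    ¬ v <:+: FreeGroup.reduceCyclically (φ (FreeGroup.of x₁)).toWord

/-- The element g is primitive: it belongs to some basis of the free group. -/
def IsPrimitive {r : ℕ} (g : FreeGroup (Fin r)) : Prop :=
  ∃ (ι : Type) (b : FreeGroupBasis ι (FreeGroup (Fin r))) (i : ι), b i = g

/-- The explicit number E(r,n), five to the power (2r+1)^(2 max(n,2)) times 2^(4r²). -/
def E (r n : ℕ) : ℕ := 5 ^ ((2 * r + 1) ^ (2 * max n 2) * 2 ^ (4 * r ^ 2))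

open Pool.Agent.Lib_4426b5

theorem isPrimitive_iff {r : ℕ} (g : FreeGroup (Fin r)) :
    IsPrimitive g ↔ ∃ (φ : MulAut (FreeGroup (Fin r))) (i : Fin r), g = φ (FreeGroup.of i) := by
  constructor
  · rintro ⟨ι, b, i, rfl⟩
    let e : ι ≃ Fin r := Equiv.ofFreeGroupEquiv b.repr.symm
    refine ⟨(FreeGroup.freeGroupCongr e.symm).trans b.repr.symm, e i, ?_⟩
    show b i = b.repr.symm (FreeGroup.freeGroupCongr e.symm (FreeGroup.of (e i)))
    rw [FreeGroup.freeGroupCongr_apply, FreeGroup.map.of, Equiv.symm_apply_apply]
    rfl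
  · rintro ⟨φ, i, rfl⟩
    exact ⟨Fin r, ⟨φ.symm⟩, i, rfl⟩

theorem reduceCyclically_self {r : ℕ} (L : List (Fin r × Bool))
    (h : FreeGroup.IsCyclicallyReduced L) : FreeGroup.reduceCyclically L = L := by
  induction L using List.bidirectionalRec
  case nil => simp
  case singleton => simp
  case cons_append a l b ih =>
    rw [FreeGroup.reduceCyclically.cons_append]
    rw [← List.cons_append, FreeGroup.isCyclicallyReduced_cons_append_iff] at h
    split
    case isTrue h' =>
      exfalso
      have h1 := h.2 h'.1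
      rw [← h'.2] at h1
      simp at h1
    case isFalse => simp

theorem blocking_iff {r : ℕ} (x₁ : Fin r) (v : List (Fin r × Bool)) :
    Blocking x₁ v ↔ ¬ Occ v := by
  constructor
  · rintro h ⟨φ, i, hv, hc⟩
    apply h ((FreeGroup.freeGroupCongr (Equiv.swap x₁ i)).trans φ)
    have e1 : ((FreeGroup.freeGroupCongr (Equiv.swap x₁ i)).trans φ) (FreeGroup.of x₁)
        = φ (FreeGroup.of i) := by
      show φ (FreeGroup.freeGroupCongr (Equiv.swap x₁ i) (FreeGroup.of x₁)) = _
      rw [FreeGroup.freeGroupCongr_apply, FreeGroup.map.of, Equiv.swap_apply_left]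
    rw [e1]
    have hcyc : FreeGroup.IsCyclicallyReduced (φ (FreeGroup.of i)).toWord := by
      rw [FreeGroup.isCyclicallyReduced_iff]
      refine ⟨FreeGroup.isReduced_toWord, ?_⟩
      intro a ha b hb hab
      by_contra hne2
      exact hc b hb a ha ⟨hab.symm, fun h => hne2 h.symm⟩
    rw [reduceCyclically_self _ hcyc]
    exact hv
  · intro h φ hv
    apply h
    apply occ_inf hv
    set L := (φ (FreeGroup.of x₁)).toWord with hL
    have hLred : FreeGroup.IsReduced L := FreeGroup.isReduced_toWord
    set g := FreeGroup.reduceCyclically.conjugator L with hg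
    set q := FreeGroup.reduceCyclically L with hq
    have hqc : FreeGroup.IsCyclicallyReduced q :=
      FreeGroup.reduceCyclically.isCyclicallyReduced hLred
    have heq : g ++ q ++ FreeGroup.invRev g = L :=
      FreeGroup.reduceCyclically.conj_conjugator_reduceCyclically L
    have hmkL : FreeGroup.mk L = φ (FreeGroup.of x₁) := FreeGroup.mk_toWord
    apply prim_iff_occ
    refine ⟨?_, hqc, MulAut.conj (FreeGroup.mk g)⁻¹ * φ, x₁, ?_⟩
    · intro hq0
      have e1 : FreeGroup.mk L = 1 := by
        rw [← heq, hq0, List.append_nil, ← FreeGroup.mul_mk, ← FreeGroup.inv_mk, mul_inv_cancel]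
      rw [hmkL] at e1
      exact FreeGroup.of_ne_one x₁ (φ.injective (by rw [e1, map_one]))
    · show _ = (FreeGroup.mk g)⁻¹ * φ (FreeGroup.of x₁) * ((FreeGroup.mk g)⁻¹)⁻¹
      rw [← hmkL, ← heq, ← FreeGroup.mul_mk, ← FreeGroup.mul_mk, ← FreeGroup.inv_mk]
      group

/-- For every rank r ≥ 2 (in particular every r ≥ 3) there is a primitive recursive function f
on words such that f v = true if and only if v is primitivity-blocking, and if f v = false then v
is a contiguous subword of a cyclically reduced primitive element of length at most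
(2E+n+6)E, where n is the length of v and E = E(r,n). -/
theorem result (r : ℕ) (hr : 2 ≤ r) (x₁ : Fin r) :
    ∃ f : List (Fin r × Bool) → Bool, Primrec f ∧ ∀ v : List (Fin r × Bool),
      (f v = true ↔ Blocking x₁ v) ∧
      (f v = false → ∃ g : FreeGroup (Fin r), IsPrimitive g ∧
        FreeGroup.IsCyclicallyReduced g.toWord ∧ v <:+: g.toWord ∧
        g.toWord.length ≤ (2 * E r v.length + v.length + 6) * E r v.length) := by
  have hnt : Nontrivial (Fin r) := Fin.nontrivial_iff_two_le.2 hr
  obtain ⟨hd, hp⟩ := (primrec_occ (r := r)).not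
  refine ⟨_, hp, fun v => ⟨?_, fun h => ?_⟩⟩
  · rw [blocking_iff, decide_eq_true_iff]
  · rw [decide_eq_false_iff_not, not_not] at h
    obtain ⟨w2, hpr, hinf, hle⟩ := occ_short h
    rw [Fintype.card_fin] at hle
    have htw : (FreeGroup.mk w2).toWord = w2 :=
      toWord_mk_red (isReduced_iff.1 hpr.2.1.isReduced)
    refine ⟨FreeGroup.mk w2, ?_, ?_, ?_, ?_⟩
    · obtain ⟨_, _, φ, i, hφ⟩ := hpr
      exact (isPrimitive_iff _).2 ⟨φ, i, hφ⟩
    · rw [htw]; exact hpr.2.1
    · rw [htw]; exact hinf
    · rw [htw]; exact hle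

end Pool.Agent.Results.MP_4426b5_al.PrimrecLengthBound
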